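import Pool.Agent.Helper80.SI.StN

set_option autoImplicit false

namespace Pool.Agent.Helper5.SI

open Pool.Agent.Helper99.SI Pool.Agent.Helper80.SI Filter Topology

section

variable {n : ℕ} {L : Type} [Ring L] [Algebra ℂ L] [StarRing L]

/-- H_j = ∑ (x_i)_(j) x_i^*. -/
noncomputable def Hj (D : Sys n L) (j : ℤ) : L := ∑ i, D.b.p j (D.x i) * star (D.x i)

lemma comb_eq (B : ZGr L) (c : ℤ → ℂ) (y : L) (Z : Finset ℤ) (hZ : ∀ j ∉ Z, B.p j y = 0) :
    B.comb c y = ∑ j ∈ Z, c j • B.p j y := by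
  show ∑ᶠ j : ℤ, c j • B.p j y = _
  apply finsum_eq_sum_of_support_subset
  intro j hj
  by_contra hjZ
  apply hj
  show c j • B.p j y = 0
  rw [hZ j hjZ, smul_zero]

lemma sum_eq (B : ZGr L) (y : L) (Z : Finset ℤ) (hZ : ∀ j ∉ Z, B.p j y = 0) :
    ∑ j ∈ Z, B.p j y = y := by
  have h1 := B.sum y
  have h2 : ∑ᶠ j : ℤ, B.p j y = ∑ j ∈ Z, B.p j y := by
    apply finsum_eq_sum_of_support_subset
    intro j hj
    by_contra hjZ
    exact hj (hZ j hjZ)
  rw [← h2, h1]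

lemma combH_eq (D : Sys n L) (Z : Finset ℤ) (hZ : ∀ j ∉ Z, ∀ i, D.b.p j (D.x i) = 0) (c : ℤ → ℂ) :
    ∑ i, D.b.comb c (D.x i) * star (D.x i) = ∑ j ∈ Z, c j • Hj D j := by
  have h1 : ∀ i, D.b.comb c (D.x i) = ∑ j ∈ Z, c j • D.b.p j (D.x i) := fun i =>
    comb_eq D.b c (D.x i) Z fun j hj => hZ j hj i
  unfold Hj
  simp only [h1, Finset.sum_mul, Finset.smul_sum, smul_mul_assoc]
  rw [Finset.sum_comm]

lemma sumH_eq (D : Sys n L) (Z : Finset ℤ) (hZ : ∀ j ∉ Z, ∀ i, D.b.p j (D.x i) = 0) :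
    ∑ j ∈ Z, Hj D j = 1 := by
  unfold Hj
  rw [Finset.sum_comm]
  rw [← D.comp]
  refine Finset.sum_congr rfl fun i _ => ?_
  rw [← Finset.sum_mul, sum_eq D.b (D.x i) Z fun j hj => hZ j hj i]

/-- The factorization identity. -/
lemma one_sub (D : Sys n L) (Z : Finset ℤ) (hZ : ∀ j ∉ Z, ∀ i, D.b.p j (D.x i) = 0) (s t : ℂ) :
    1 - s • Ht D t = (1 - s) • (1 : L) + s • ∑ j ∈ Z, (1 - t ^ j) • Hj D j := by
  have h1 : Ht D t = ∑ j ∈ Z, t ^ j • Hj D j := combH_eq D Z hZ fun j => t ^ j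
  have h2 := sumH_eq D Z hZ
  simp only [sub_smul, one_smul, Finset.sum_sub_distrib]
  rw [h2, h1, smul_sub]
  abel

/-- Continuity in t. -/
lemma cont_pi (D : Sys n L) (m : MData n L) (T : L →ₗ[ℂ] ℂ) (t : ℕ → ℝ)
    (ht : Tendsto t atTop (𝓝 1)) (i : Idx n m.r) (y : L) :
    Tendsto (fun k => T (m.piT D (t k) i * y)) atTop (𝓝 (T (m.piT D 1 i * y))) := by
  have hpow : ∀ j : ℤ, Tendsto (fun k => ((t k : ℝ) : ℂ) ^ j) atTop (𝓝 (((1 : ℝ) : ℂ) ^ j)) := by
    intro j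
    have h1 : Tendsto (fun k => ((t k : ℝ) : ℂ)) atTop (𝓝 (((1 : ℝ)) : ℂ)) :=
      (Complex.continuous_ofReal.tendsto 1).comp ht
    exact h1.zpow₀ j (Or.inl (by norm_num))
  rcases i with (ν | ν) | a
  · by_cases hν : m.M ≤ ν.length
    · have h2 : ∀ u : ℝ, m.piT D u (Sum.inl (Sum.inl ν)) =
          ∑ j ∈ (D.b.fin (D.w ν)).toFinset, (u : ℂ) ^ j • D.b.p j (D.w ν) := by
        intro u
        show (if m.M ≤ ν.length then D.b.ev (u : ℂ) (D.w ν) else 0) = _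
        rw [if_pos hν]
        apply comb_eq
        intro j hj
        by_contra h
        exact hj (by simpa using h)
      simp only [h2, Finset.sum_mul, map_sum, smul_mul_assoc, map_smul, smul_eq_mul]
      apply tendsto_finsetSum
      intro j _
      exact (hpow j).mul_const _
    · have h2 : ∀ u : ℝ, m.piT D u (Sum.inl (Sum.inl ν)) = 0 := by
        intro u
        show (if m.M ≤ ν.length then D.b.ev (u : ℂ) (D.w ν) else 0) = _
        rw [if_neg hν]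
      simp only [h2, zero_mul, map_zero]
      exact tendsto_const_nhds
  · have h2 : ∀ u : ℝ, m.piT D u (Sum.inl (Sum.inr ν)) =
        (if m.M ≤ ν.length then star (D.w ν) else 0) := fun u => rfl
    simp only [h2]
    exact tendsto_const_nhds
  · have h2 : ∀ u : ℝ, m.piT D u (Sum.inr a) =
        ∑ j ∈ m.Z, (u : ℂ) ^ j • m.bb j a := fun u => rfl
    simp only [h2, Finset.sum_mul, map_sum, smul_mul_assoc, map_smul, smul_eq_mul]
    apply tendsto_finsetSum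
    intro j _
    exact (hpow j).mul_const _

end

/-- Differentiation of t ↦ t^j at 1. -/
lemma exists_q (j : ℤ) : ∃ q : ℝ → ℝ, (∀ t, 1 - t ^ j = (1 - t) * q t) ∧
    Tendsto q (𝓝 1) (𝓝 (j : ℝ)) := by
  have hd : HasDerivAt (fun t : ℝ => t ^ j) ((j : ℝ) * (1 : ℝ) ^ (j - 1)) 1 :=
    hasDerivAt_zpow j 1 (Or.inl one_ne_zero)
  refine ⟨dslope (fun t : ℝ => t ^ j) 1, ?_, ?_⟩
  · intro t
    have h := sub_smul_dslope (fun t : ℝ => t ^ j) 1 t
    simp only [smul_eq_mul, one_zpow] at h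
    linarith
  · have h := (continuousAt_dslope_same (f := fun t : ℝ => t ^ j) (a := (1 : ℝ))).mpr
      hd.differentiableAt
    have h2 := h.tendsto
    rw [dslope_same, hd.deriv, one_zpow, mul_one] at h2
    exact h2

theorem hN12 (h1 : StA0) (h2 : StK2) (h3 : StN10) (h4 : StN11) : StN12 := by
  intro n L _ _ _ _ _ D X0 m s t zz z σ τ c hm hL hc
  obtain ⟨-, hadd, hsmul, -⟩ := h2 n L D c hc
  let T : L →ₗ[ℂ] ℂ :=
    { toFun := D.tau c
      map_add' := hadd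
      map_smul' := fun a y => by rw [hsmul]; rfl }
  have hT : ∀ y, D.tau c y = T y := fun y => rfl
  -- the level
  choose K hK using fun y : L => h3 n L D m c y hc
  have hK' : ∃ K0 : ℕ, K 1 ≤ K0 ∧ ∀ j ∈ m.Z, K (Hj D j) ≤ K0 := by
    refine ⟨K 1 + ∑ j ∈ m.Z, K (Hj D j), Nat.le_add_right _ _, ?_⟩
    intro j hj
    have : K (Hj D j) ≤ ∑ j ∈ m.Z, K (Hj D j) :=
      Finset.single_le_sum (f := fun j => K (Hj D j)) (fun _ _ => Nat.zero_le _) hj
    omega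
  obtain ⟨K0, hK1, hKH⟩ := hK'
  have hz1 : ∀ (u : ℝ) (i : Idx n m.r), K0 < ilen i → T (m.piT D u i * 1) = 0 := fun u i hi =>
    hK 1 u i (lt_of_le_of_lt hK1 hi)
  have hzH : ∀ (u : ℝ) (i : Idx n m.r), K0 < ilen i → ∀ j ∈ m.Z, T (m.piT D u i * Hj D j) = 0 :=
    fun u i hi j hj => hK (Hj D j) u i (lt_of_le_of_lt (hKH j hj) hi)
  have hfin : {i : Idx n m.r | ilen i ≤ K0}.Finite := fin_ilen K0
  set S : Finset (Idx n m.r) := hfin.toFinset with hS
  have hmem : ∀ i, i ∉ S → K0 < ilen i := by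
    intro i hi
    by_contra hcon
    apply hi
    rw [hS, Set.Finite.mem_toFinset]
    exact not_lt.mp hcon
  choose q hq hql using exists_q
  -- the trace of the product with 1 - s Ht
  have hexp : ∀ (s t : ℝ) (i : Idx n m.r),
      T (m.piT D t i * (1 - (s : ℂ) • Ht D (t : ℂ))) =
        ((1 - s : ℝ) : ℂ) * T (m.piT D t i * 1) +
          (s : ℂ) * ∑ j ∈ m.Z, (((1 - t) * q j t : ℝ) : ℂ) * T (m.piT D t i * Hj D j) := by
    intro s t i
    rw [one_sub D m.Z hm.zx, mul_add, map_add, mul_smul_comm, map_smul, mul_smul_comm, map_smul,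
      Finset.mul_sum, map_sum]
    have hcast : ∀ j : ℤ, (1 : ℂ) - (t : ℂ) ^ j = (((1 - t) * q j t : ℝ) : ℂ) := by
      intro j
      rw [← hq j t]
      push_cast
      rfl
    simp only [hcast, mul_smul_comm, map_smul, smul_eq_mul]
    push_cast
    rfl
  -- the identity at stage k
  have hk : ∀ k, ∑ i ∈ S, zz k i * ((((1 - s k) / (2 - s k - t k) : ℝ) : ℂ) * T (m.piT D (t k) i * 1) +
      (s k : ℂ) * ∑ j ∈ m.Z, (((1 - t k) / (2 - s k - t k) : ℝ) : ℂ) * (q j (t k) : ℂ) *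
        T (m.piT D (t k) i * Hj D j)) = 0 := by
    intro k
    have h5 := h4 n L D X0 m (s k) (t k) (zz k) c hm (hL.t0 k) (hL.ker k) hc
    have h6 : ∑ᶠ i : Idx n m.r, zz k i * D.tau c (m.piT D (t k) i * (1 - (s k : ℂ) • Ht D (t k : ℂ))) =
        ∑ i ∈ S, zz k i * D.tau c (m.piT D (t k) i * (1 - (s k : ℂ) • Ht D (t k : ℂ))) := by
      apply finsum_eq_sum_of_support_subset
      intro i hi
      by_contra hiS
      apply hi
      have h7 := hmem i hiS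
      show zz k i * T (m.piT D (t k) i * (1 - (s k : ℂ) • Ht D (t k : ℂ))) = 0
      rw [hexp, hz1 _ i h7, Finset.sum_eq_zero fun j hj => by rw [hzH _ i h7 j hj, mul_zero]]
      simp
    rw [h6] at h5
    have hδ : (2 - s k - t k : ℝ) ≠ 0 := by
      have := hL.ne k
      intro h
      linarith
    have h8 : ∑ i ∈ S, zz k i * ((((1 - s k) / (2 - s k - t k) : ℝ) : ℂ) * T (m.piT D (t k) i * 1) +
        (s k : ℂ) * ∑ j ∈ m.Z, (((1 - t k) / (2 - s k - t k) : ℝ) : ℂ) * (q j (t k) : ℂ) *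
          T (m.piT D (t k) i * Hj D j)) = (((2 - s k - t k : ℝ) : ℂ))⁻¹ *
        ∑ i ∈ S, zz k i * D.tau c (m.piT D (t k) i * (1 - (s k : ℂ) • Ht D (t k : ℂ))) := by
      rw [Finset.mul_sum]
      refine Finset.sum_congr rfl fun i _ => ?_
      rw [hT, hexp]
      have h9 : ∀ (A : ℂ) (f : ℤ → ℂ), (((2 - s k - t k : ℝ) : ℂ))⁻¹ *
          (zz k i * (A + (s k : ℂ) * ∑ j ∈ m.Z, f j)) =
          zz k i * ((((2 - s k - t k : ℝ) : ℂ))⁻¹ * A +
            (s k : ℂ) * ∑ j ∈ m.Z, (((2 - s k - t k : ℝ) : ℂ))⁻¹ * f j) := by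
        intro A f
        rw [← Finset.mul_sum]
        ring
      rw [h9]
      congr 1
      congr 1
      · push_cast
        ring
      · congr 1
        refine Finset.sum_congr rfl fun j _ => ?_
        push_cast
        ring
    rw [h8, h5, mul_zero]
  -- the limit
  have hcast : ∀ (a : ℕ → ℝ) (b : ℝ), Tendsto a atTop (𝓝 b) →
      Tendsto (fun k => ((a k : ℝ) : ℂ)) atTop (𝓝 (b : ℂ)) := fun a b hab =>
    (Complex.continuous_ofReal.tendsto b).comp hab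
  have hlim : Tendsto (fun k => ∑ i ∈ S, zz k i * ((((1 - s k) / (2 - s k - t k) : ℝ) : ℂ) *
      T (m.piT D (t k) i * 1) +
      (s k : ℂ) * ∑ j ∈ m.Z, (((1 - t k) / (2 - s k - t k) : ℝ) : ℂ) * (q j (t k) : ℂ) *
        T (m.piT D (t k) i * Hj D j))) atTop
      (𝓝 (∑ i ∈ S, z i * ((σ : ℂ) * T (m.piT D 1 i * 1) +
        ((1 : ℝ) : ℂ) * ∑ j ∈ m.Z, (τ : ℂ) * ((j : ℝ) : ℂ) * T (m.piT D 1 i * Hj D j)))) := by
    apply tendsto_finsetSum
    intro i _
    refine (hL.lim i).mul (((hcast _ _ hL.σl).mul (cont_pi D m T t hL.tl i 1)).add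
      ((hcast _ _ hL.sl).mul ?_))
    apply tendsto_finsetSum
    intro j _
    exact ((hcast _ _ hL.τl).mul (hcast _ _ ((hql j).comp hL.tl))).mul
      (cont_pi D m T t hL.tl i (Hj D j))
  have hlim0 : ∑ i ∈ S, z i * ((σ : ℂ) * T (m.piT D 1 i * 1) +
        ((1 : ℝ) : ℂ) * ∑ j ∈ m.Z, (τ : ℂ) * ((j : ℝ) : ℂ) * T (m.piT D 1 i * Hj D j)) = 0 := by
    refine tendsto_nhds_unique hlim ?_
    simp only [hk]
    exact tendsto_const_nhds
  -- identify
  have hHH : ∀ i : Idx n m.r, T (m.piT D 1 i * HH D) =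
      ∑ j ∈ m.Z, ((j : ℝ) : ℂ) * T (m.piT D 1 i * Hj D j) := by
    intro i
    have h5 : HH D = ∑ j ∈ m.Z, (j : ℂ) • Hj D j := combH_eq D m.Z hm.zx fun j => (j : ℂ)
    rw [h5, Finset.mul_sum, map_sum]
    refine Finset.sum_congr rfl fun j _ => ?_
    rw [mul_smul_comm, map_smul, smul_eq_mul]
    push_cast
    rfl
  have h10 : ∑ᶠ i : Idx n m.r, z i * D.tau c (m.piT D 1 i) = ∑ i ∈ S, z i * T (m.piT D 1 i * 1) := by
    have h11 : ∀ i : Idx n m.r, z i * D.tau c (m.piT D 1 i) = z i * T (m.piT D 1 i * 1) := by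
      intro i
      rw [mul_one]
      rfl
    simp only [h11]
    apply finsum_eq_sum_of_support_subset
    intro i hi
    by_contra hiS
    apply hi
    show z i * T (m.piT D 1 i * 1) = 0
    rw [hz1 _ i (hmem i hiS), mul_zero]
  have h12 : ∑ᶠ i : Idx n m.r, z i * D.tau c (m.piT D 1 i * HH D) =
      ∑ i ∈ S, z i * T (m.piT D 1 i * HH D) := by
    apply finsum_eq_sum_of_support_subset
    intro i hi
    by_contra hiS
    apply hi
    show z i * T (m.piT D 1 i * HH D) = 0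
    have h13 : ∑ j ∈ m.Z, ((j : ℝ) : ℂ) * T (m.piT D 1 i * Hj D j) = 0 :=
      Finset.sum_eq_zero fun j hj => by rw [hzH _ i (hmem i hiS) j hj, mul_zero]
    rw [hHH, h13, mul_zero]
  rw [h10, h12, Finset.mul_sum, Finset.mul_sum, ← Finset.sum_add_distrib, ← hlim0]
  refine Finset.sum_congr rfl fun i _ => ?_
  rw [hHH]
  have h13 : ∑ j ∈ m.Z, (τ : ℂ) * ((j : ℝ) : ℂ) * T (m.piT D 1 i * Hj D j) =
      (τ : ℂ) * ∑ j ∈ m.Z, ((j : ℝ) : ℂ) * T (m.piT D 1 i * Hj D j) := by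
    rw [Finset.mul_sum]
    refine Finset.sum_congr rfl fun j _ => ?_
    ring
  rw [h13]
  push_cast
  ring

end Pool.Agent.Helper5.SI
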