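import Pool.Agent.Helper80.SI.StN

set_option autoImplicit false

namespace Pool.Agent.Helper5.SI

open Pool.Agent.Helper99.SI Pool.Agent.Helper80.SI Filter Topology

lemma isKer_mul {n : ℕ} {L : Type} [Ring L] [Algebra ℂ L] [StarRing L] (m : MData n L)
    (s t : ℝ) (z : Idx n m.r → ℂ) (c : ℂ) (h : m.IsKer s t z) :
    m.IsKer s t (fun i => c * z i) := by
  intro i
  have h1 := h i
  have h2 : ∑ᶠ i' : Idx n m.r, m.Fc t i' i * (c * z i') =
      c * ∑ᶠ i' : Idx n m.r, m.Fc t i' i * z i' := by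
    have := smul_finsum (R := ℂ) (M := ℂ) c (fun i' : Idx n m.r => m.Fc t i' i * z i')
    rw [smul_eq_mul] at this
    rw [this]
    refine finsum_congr fun i' => ?_
    simp only [smul_eq_mul]
    ring
  show c * z i = s * ∑ᶠ i' : Idx n m.r, m.Fc t i' i * (c * z i')
  rw [h2, h1]
  ring

theorem hN2 (h1 : StN1) : StN2 := by
  intro n L _ _ _ _ _ D X0 m hm hC1 hNo
  obtain ⟨C, ε, J, hε, hC⟩ := hC1
  have hk : ∀ k : ℕ, 0 < min ε (1/2) / ((k : ℝ) + 1) := by
    intro k
    have : 0 < min ε (1/2) := lt_min hε (by norm_num)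
    positivity
  have hex : ∀ k : ℕ, ∃ (s t : ℝ) (z : Idx n m.r → ℂ), 1 - min ε (1/2) / ((k : ℝ) + 1) < s ∧ s ≤ 1 ∧
      1 - min ε (1/2) / ((k : ℝ) + 1) < t ∧ t ≤ 1 ∧ (s, t) ≠ (1, 1) ∧ (Summable fun i => ‖z i‖ ^ 2) ∧
      m.IsKer s t z ∧ z ≠ 0 := by
    intro k
    by_contra hcon
    apply hNo
    refine ⟨_, hk k, ?_⟩
    intro s t hs1 hs2 ht1 ht2 hst z hz hker
    by_contra hz0
    exact hcon ⟨s, t, z, hs1, hs2, ht1, ht2, hst, hz, hker, hz0⟩
  choose s t z hs1 hs2 ht1 ht2 hst hz hker hz0 using hex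
  have hle : ∀ k : ℕ, min ε (1/2) / ((k : ℝ) + 1) ≤ min ε (1/2) := by
    intro k
    have h0 : 0 < min ε (1/2) := lt_min hε (by norm_num)
    apply div_le_self h0.le
    have : (0 : ℝ) ≤ k := Nat.cast_nonneg k
    linarith
  have hC' : ∀ (k : ℕ) (y : Idx n m.r → ℂ), (Summable fun i => ‖y i‖ ^ 2) → m.IsKer (s k) (t k) y →
      ∑' i, ‖y i‖ ^ 2 ≤ C * ∑ i ∈ J, ‖y i‖ ^ 2 := by
    intro k y hy hky
    have h3 := hle k
    have h4 : min ε (1/2) ≤ ε := min_le_left _ _
    exact hC (s k) (t k) (by linarith [hs1 k]) (hs2 k) (by linarith [ht1 k]) (ht2 k) (hst k) y hy hky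
  have hq : ∀ k, 0 < ∑ i ∈ J, ‖z k i‖ ^ 2 := by
    intro k
    have h3 : 0 ≤ ∑ i ∈ J, ‖z k i‖ ^ 2 := Finset.sum_nonneg fun i _ => by positivity
    rcases h3.lt_or_eq with h4 | h4
    · exact h4
    · exfalso
      apply hz0 k
      have h5 := hC' k (z k) (hz k) (hker k)
      rw [← h4, mul_zero] at h5
      funext i
      have h6 : ‖z k i‖ ^ 2 ≤ ∑' i, ‖z k i‖ ^ 2 := (hz k).le_tsum i (fun j _ => by positivity)
      have h7 : ‖z k i‖ ^ 2 ≤ 0 := h6.trans h5
      have h8 : ‖z k i‖ ^ 2 = 0 := le_antisymm h7 (by positivity)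
      have h9 : ‖z k i‖ = 0 := by
        rcases pow_eq_zero_iff (two_ne_zero) |>.mp h8 with h
        exact h
      simpa using h9
  set q : ℕ → ℝ := fun k => ∑ i ∈ J, ‖z k i‖ ^ 2 with hqdef
  set y : ℕ → Idx n m.r → ℂ := fun k i => (((Real.sqrt (q k))⁻¹ : ℝ) : ℂ) * z k i with hydef
  have hyn : ∀ k i, ‖y k i‖ ^ 2 = (q k)⁻¹ * ‖z k i‖ ^ 2 := by
    intro k i
    rw [hydef]
    simp only [norm_mul, mul_pow, Complex.norm_real, Real.norm_eq_abs, sq_abs, inv_pow]
    rw [Real.sq_sqrt (hq k).le]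
  have hysum : ∀ k, Summable fun i => ‖y k i‖ ^ 2 := by
    intro k
    simp only [hyn]
    exact (hz k).mul_left _
  have hyker : ∀ k, m.IsKer (s k) (t k) (y k) := fun k => isKer_mul m (s k) (t k) (z k) _ (hker k)
  have hyJ : ∀ k, ∑ i ∈ J, ‖y k i‖ ^ 2 = 1 := by
    intro k
    simp only [hyn]
    rw [← Finset.mul_sum]
    exact inv_mul_cancel₀ (hq k).ne'
  have hyB : ∀ k, ∑' i, ‖y k i‖ ^ 2 ≤ C := by
    intro k
    have := hC' k (y k) (hysum k) (hyker k)
    rwa [hyJ k, mul_one] at this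
  have hne : ∀ k, s k + t k < 2 := by
    intro k
    rcases lt_or_eq_of_le (hs2 k) with h | h
    · linarith [ht2 k]
    · rcases lt_or_eq_of_le (ht2 k) with h' | h'
      · linarith
      · exact absurd (by rw [h, h'] : (s k, t k) = ((1 : ℝ), (1 : ℝ))) (hst k)
  have ha : ∀ k, 0 ≤ (1 - s k) / (2 - s k - t k) ∧ (1 - s k) / (2 - s k - t k) ≤ 1 := by
    intro k
    have h3 : 0 < 2 - s k - t k := by linarith [hne k]
    constructor
    · apply div_nonneg _ h3.le
      linarith [hs2 k]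
    · rw [div_le_one h3]
      linarith [ht2 k]
  obtain ⟨φ, z', σ, hφ, hlim, hσ, hsum⟩ := h1 (Idx n m.r) y (fun k => (1 - s k) / (2 - s k - t k)) C
    hysum hyB ha
  have hphi : Tendsto φ atTop atTop := hφ.tendsto_atTop
  have hεlim : Tendsto (fun k : ℕ => min ε (1/2) / ((k : ℝ) + 1)) atTop (𝓝 0) := by
    have := tendsto_one_div_add_atTop_nhds_zero_nat (𝕜 := ℝ)
    have h5 := this.const_mul (min ε (1/2))
    rw [mul_zero] at h5
    refine h5.congr fun k => ?_
    rw [mul_one_div]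
  have hslim : Tendsto s atTop (𝓝 1) := by
    have hl : Tendsto (fun k : ℕ => 1 - min ε (1/2) / ((k : ℝ) + 1)) atTop (𝓝 1) := by
      have := hεlim.const_sub 1
      rwa [sub_zero] at this
    exact tendsto_of_tendsto_of_tendsto_of_le_of_le hl tendsto_const_nhds (fun k => (hs1 k).le) hs2
  have htlim : Tendsto t atTop (𝓝 1) := by
    have hl : Tendsto (fun k : ℕ => 1 - min ε (1/2) / ((k : ℝ) + 1)) atTop (𝓝 1) := by
      have := hεlim.const_sub 1
      rwa [sub_zero] at this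
    exact tendsto_of_tendsto_of_tendsto_of_le_of_le hl tendsto_const_nhds (fun k => (ht1 k).le) ht2
  have hhalf : ∀ k : ℕ, min ε (1/2) / ((k : ℝ) + 1) ≤ 1/2 := fun k => (hle k).trans (min_le_right _ _)
  refine ⟨fun k => s (φ k), fun k => t (φ k), fun k => y (φ k), z', σ, 1 - σ, ?_, ?_⟩
  · constructor
    · intro k
      have := hhalf (φ k)
      linarith [hs1 (φ k)]
    · intro k
      exact hs2 _
    · intro k
      have := hhalf (φ k)
      linarith [ht1 (φ k)]
    · intro k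
      exact ht2 _
    · intro k
      exact hne _
    · exact hslim.comp hphi
    · exact htlim.comp hphi
    · intro k
      exact hyker _
    · exact hlim
    · exact hsum
    · exact ge_of_tendsto' hσ fun k => (ha (φ k)).1
    · have : σ ≤ 1 := le_of_tendsto' hσ fun k => (ha (φ k)).2
      linarith
    · ring
    · exact hσ
    · have h5 := hσ.const_sub 1
      refine h5.congr fun k => ?_
      have h3 : 2 - s (φ k) - t (φ k) ≠ 0 := by
        have := hne (φ k)
        intro h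
        linarith
      field_simp
      ring
  · intro hz'
    have h5 : Tendsto (fun k => ∑ i ∈ J, ‖y (φ k) i‖ ^ 2) atTop (𝓝 (∑ i ∈ J, ‖z' i‖ ^ 2)) := by
      apply tendsto_finsetSum
      intro i _
      exact ((hlim i).norm).pow 2
    have h6 : Tendsto (fun k => ∑ i ∈ J, ‖y (φ k) i‖ ^ 2) atTop (𝓝 1) := by
      simp only [hyJ]
      exact tendsto_const_nhds
    have h7 := tendsto_nhds_unique h5 h6
    rw [hz'] at h7
    simp at h7

end Pool.Agent.Helper5.SI
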